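import Pool.Agent.Run7.h783.MW.All
import Pool.Agent.W472.AC.RothThm

/-!
# Montgomery's conjecture for Weyl sums on arithmetic progressions of leading coefficients

The leading coefficient runs over an arithmetic progression `t = θ + m α`, `0 ≤ m < K`, with an
arbitrary real `θ` and a fixed algebraic irrational difference `α` (or a difference for which the
conclusion of Roth's theorem holds, so almost every real `α`). At almost all points of the progression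
the inequality of `H_k(u)` holds for ALL real linear coefficients and for ALL lengths `N` with
`N ^ Γ ≤ K` at once; for `u = 1 / k` one can take `Γ = k - 3 + 4 / k` if `k ≥ 4`, and `Γ = 3` if `k = 3`.

Method: the moments of the system of degrees `1, k` over the progression (the supremum over the linear
coefficient costs one factor `N`), the bound `N ^ ε` for the number of representations of a nonzero
integer by `(x + y - z) ^ k - x ^ k - y ^ k + z ^ k`, Hua's lemma for this system, Roth's theorem, dyadic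
lengths and the maximal inequality in the length.
-/

set_option autoImplicit false

open Finset

namespace Pool.Agent.Results.MP_3b0be2_nt.AlgebraicProgressions

/-- the Weyl sum `∑_{n ≤ N} e(t n ^ k + ξ n)` -/
noncomputable def weyl (k N : ℕ) (t ξ : ℝ) : ℂ :=
  ∑ n ∈ Finset.Icc 1 N,
    Complex.exp (2 * (Real.pi : ℂ) * Complex.I * (((t * (n : ℝ) ^ k + ξ * (n : ℝ)) : ℝ) : ℂ))

/-- For every `τ > 0` there is `c > 0` such that `|q α - p| ≥ c / q ^ (1 + τ)` for all integers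
`q ≥ 1` and `p`. -/
def RothType (α : ℝ) : Prop :=
  ∀ τ : ℝ, 0 < τ → ∃ c : ℝ, 0 < c ∧ ∀ q : ℕ, 1 ≤ q → ∀ p : ℤ, c ≤ (q : ℝ) ^ (1 + τ) * |q * α - p|

/-- the number of integers `0 ≤ m < K` such that for some real `ξ` the Weyl sum at `t = θ + m α` has
absolute value greater than `V` -/
noncomputable def count (k N K : ℕ) (θ α V : ℝ) : ℕ :=
  {m : ℕ | m < K ∧ ∃ ξ : ℝ, V < ‖weyl k N (θ + m * α) ξ‖}.ncard

/-- the exponents `Γ` for which the lengths `N` with `N ^ Γ ≤ K` are treated, for the exponent `u`: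
`Γ = k - 3 + 4 u` if `k ≥ 4` and `u ≤ 1 / 4`, and `Γ = k - i + (2 ^ i + 2) u` if `1 ≤ i < k` and
`(2 ^ i + 2) u ≤ i` -/
def RangeExp (k : ℕ) (u Γ : ℝ) : Prop :=
  (4 ≤ k ∧ 0 ≤ u ∧ u ≤ 1 / 4 ∧ Γ = k - 3 + 4 * u) ∨
  (∃ i : ℕ, 1 ≤ i ∧ i < k ∧ 0 ≤ u ∧ (2 ^ i + 2) * u ≤ i ∧ Γ = k - i + (2 ^ i + 2) * u)

theorem big_le (k N q : ℕ) (η ε : ℝ) (hη : 0 ≤ η) (hN : 1 ≤ N) :
    (N : ℝ) ^ (1 - η + ε) ≤
      (N : ℝ) ^ (1 + ε) * (1 / (q : ℝ) + 1 / (N : ℝ) + (q : ℝ) / (N : ℝ) ^ k) ^ η := by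
  have hN0 : (0 : ℝ) < N := by exact_mod_cast hN
  have e : (N : ℝ) ^ (1 - η + ε) = (N : ℝ) ^ (1 + ε) * (1 / (N : ℝ)) ^ η := by
    rw [one_div, Real.inv_rpow hN0.le, ← Real.rpow_neg hN0.le, ← Real.rpow_add hN0]
    congr 1
    ring
  rw [e]
  refine mul_le_mul_of_nonneg_left ?_ (by positivity)
  apply Real.rpow_le_rpow (by positivity) _ hη
  have h1 : 0 ≤ 1 / (q : ℝ) := by positivity
  have h2 : 0 ≤ (q : ℝ) / (N : ℝ) ^ k := by positivity
  linarith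

theorem count_le (k : ℕ) (α : ℝ) (p : ℕ) (a b : ℝ) (h : Pool.Agent.Run7.h783.MW.LV k α p a b)
    (ε : ℝ) (hε : 0 < ε) :
    ∃ C : ℝ, 0 < C ∧ ∀ (N K : ℕ) (θ V : ℝ), 1 ≤ N → 0 < V →
      (count k N K θ α V : ℝ) ≤
        C * (K * (N : ℝ) ^ (a + ε) + (N : ℝ) ^ (b + ε)) / V ^ p := by
  classical
  obtain ⟨C, hC, h⟩ := h ε hε
  refine ⟨C, hC, fun N K θ V hN hV => ?_⟩
  have h1 := h N K θ V hN hV
    ((range K).filter fun m : ℕ => ∃ ξ : ℝ, V < ‖weyl k N (θ + m * α) ξ‖)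
    (Finset.filter_subset _ _) (fun m hm => (Finset.mem_filter.1 hm).2)
  have h2 : {m : ℕ | m < K ∧ ∃ ξ : ℝ, V < ‖weyl k N (θ + m * α) ξ‖} =
      (((range K).filter fun m : ℕ => ∃ ξ : ℝ, V < ‖weyl k N (θ + m * α) ξ‖ : Finset ℕ) :
        Set ℕ) := by
    ext m
    simp only [Set.mem_ofPred_eq, Finset.coe_filter, Finset.mem_range]
  unfold count
  rw [h2, Set.ncard_coe_finset]
  exact h1

/-- **Weyl sums on arithmetic progressions of leading coefficients.** Let `α` be an irrational real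
number which is algebraic (over `ℚ`), or for which the conclusion of Roth's theorem holds, and `ε > 0`.

**(1)** Large values. For every `k ≥ 3` there is `C` such that for all `N ≥ 1`, all `K`, all real `θ` and
all `V > 0`, for at most `C (K N ^ (3 + ε) + N ^ (k + 1 + ε)) / V ^ 4` of the integers `0 ≤ m < K` there is
a real `ξ` with `|∑_{n ≤ N} e((θ + m α) n ^ k + ξ n)| > V`. For every `k ≥ 2` and `1 ≤ i ≤ k` the same holds
with `C (K N ^ (2 ^ i + 2 - i + ε) + N ^ (2 ^ i + 2 - i + k + ε)) / V ^ (2 ^ i + 2)`.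

**(2)** All lengths at once. Let `Γ` be one of the exponents of `RangeExp k u`, and `η > 0`. There is `C`
such that for all `K` and all real `θ`, for all but at most `η K` of the integers `0 ≤ m < K`: for ALL
`N ≥ 1` with `N ^ Γ ≤ K` and ALL real `ξ` the sum at `t = θ + m α` is at most `C N ^ (1 - u + ε)`, and
therefore the inequality of `H_k(u)` holds for this `t`, these `N`, `ξ` and all `q`, with the constant
`C`. For `u = 1 / k`: `Γ = k - 3 + 4 / k` if `k ≥ 4`, and `Γ = 3` if `k = 3` (`i = 2`). -/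
theorem result : ∀ α : ℝ, Irrational α → (IsAlgebraic ℚ α ∨ RothType α) → ∀ ε : ℝ, 0 < ε →
    (∀ k : ℕ, 3 ≤ k → ∃ C : ℝ, 0 < C ∧ ∀ (N K : ℕ) (θ V : ℝ), 1 ≤ N → 0 < V →
      (count k N K θ α V : ℝ) ≤
        C * (K * (N : ℝ) ^ (3 + ε) + (N : ℝ) ^ ((k : ℝ) + 1 + ε)) / V ^ 4) ∧
    (∀ k i : ℕ, 2 ≤ k → 1 ≤ i → i ≤ k → ∃ C : ℝ, 0 < C ∧ ∀ (N K : ℕ) (θ V : ℝ), 1 ≤ N → 0 < V →
      (count k N K θ α V : ℝ) ≤
        C * (K * (N : ℝ) ^ ((2 : ℝ) ^ i + 2 - i + ε) + (N : ℝ) ^ ((2 : ℝ) ^ i + 2 - i + k + ε)) /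
          V ^ (2 ^ i + 2)) ∧
    (∀ (k : ℕ) (u Γ : ℝ), RangeExp k u Γ → ∀ η : ℝ, 0 < η →
      ∃ C : ℝ, 0 < C ∧ ∀ (K : ℕ) (θ : ℝ), ∃ Bad : Finset ℕ, (Bad.card : ℝ) ≤ η * K ∧
        ∀ m : ℕ, m < K → m ∉ Bad → ∀ N : ℕ, 1 ≤ N → (N : ℝ) ^ Γ ≤ K →
          ∀ ξ : ℝ, ‖weyl k N (θ + m * α) ξ‖ ≤ C * (N : ℝ) ^ (1 - u + ε) ∧
            ∀ q : ℕ, ‖weyl k N (θ + m * α) ξ‖ ≤ C * (N : ℝ) ^ (1 + ε) *
              (1 / (q : ℝ) + 1 / (N : ℝ) + (q : ℝ) / (N : ℝ) ^ k) ^ u) := by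
  classical
  intro α hirr hα ε hε
  have hR : Pool.Agent.Run7.h783.PL.Roth α := by
    rcases hα with h | h
    · exact fun τ hτ => Pool.Agent.W472.AC.roth α h hirr τ hτ
    · exact h
  refine ⟨fun k hk => ?_, fun k i hk hi hik => ?_, fun k u Γ hu η hη => ?_⟩
  · exact count_le k α 4 3 ((k : ℝ) + 1) (Pool.Agent.Run7.h783.MW.LV_four k hk α hirr hR) ε hε
  · exact count_le k α (2 ^ i + 2) ((2 : ℝ) ^ i + 2 - i) ((2 : ℝ) ^ i + 2 - i + k)
      (Pool.Agent.Run7.h783.MW.LV_gen k i hk hi hik α hirr hR) ε hε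
  · have hu0 : 0 ≤ u := by
      rcases hu with ⟨_, h, _⟩ | ⟨_, _, _, h, _⟩ <;> exact h
    obtain ⟨C, hC, h⟩ := Pool.Agent.Run7.h783.MW.final_all k u Γ hu α hirr hR ε η hε hη
    refine ⟨C, hC, fun K θ => ?_⟩
    obtain ⟨Bad, _, hB, h1⟩ := h K θ
    refine ⟨Bad, hB, fun m hm hmB N hN hNK ξ => ?_⟩
    have h2 : ‖weyl k N (θ + m * α) ξ‖ ≤ C * (N : ℝ) ^ (1 - u + ε) :=
      h1 m (Finset.mem_range.2 hm) hmB N hN hNK ξ
    refine ⟨h2, fun q => h2.trans ?_⟩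
    rw [mul_assoc]
    exact mul_le_mul_of_nonneg_left (big_le k N q u ε hu0 hN) hC.le

end Pool.Agent.Results.MP_3b0be2_nt.AlgebraicProgressions
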