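import Pool.Agent.Run7.h556.MW.DimT

/-!
# Montgomery's conjecture on Weyl sums: the exceptional leading coefficients, all linear coefficients at once

The moments of order `2^i + 2` over the leading and the linear coefficient are bounded by `N^(2^i + 1 - i + δ)`
(for `i = 1, 2` by the strict convexity of `x^k` and divisor bounds, then by Weyl differencing, which removes the
linear coefficient). A maximal inequality for incomplete sums and partial summation show that the supremum over the
linear coefficient is essentially constant at scale `N^(-k)`; a covering argument bounds the Hausdorff dimension of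
the set of all leading coefficients `t` at which the inequality of `H_k(η)` fails for some linear coefficients.
-/

set_option autoImplicit false

namespace Pool.Agent.Results.MP_3b0be2_nt.ExceptionalLeadingCoefficients

/-- For all `k ≥ 2`, `1 ≤ i ≤ k`, `0 ≤ η ≤ 1` and `ε > 0`, the set of real `t` such that for no constant `C` the
inequality `|∑_{n ≤ N} e(t n^k + ξ n)| ≤ C N^(1+ε) (1/q + 1/N + q/N^k)^η` holds for all integers `N ≥ 2`, ALL real `ξ`
and all coprime `1 ≤ a < q ≤ N` with `|t - a/q| ≤ 1/q^2`, has Hausdorff dimension at most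
`1 - (i - (2^i + 2)(η - ε)) / k`. With `i = 2` and `η = 1/k` this is `1 - (2 - 6/k + 6ε)/k`, less than `1` for every
`k ≥ 3`. -/
theorem result : ∀ k i : ℕ, 2 ≤ k → 1 ≤ i → i ≤ k → ∀ η ε : ℝ, 0 ≤ η → η ≤ 1 → 0 < ε →
    dimH {t : ℝ | ¬ ∃ C : ℝ, ∀ N : ℕ, 2 ≤ N → ∀ ξ : ℝ, ∀ a q : ℕ, 1 ≤ a → a < q → q ≤ N → Nat.Coprime a q →
      |t - (a : ℝ) / (q : ℝ)| ≤ 1 / (q : ℝ) ^ 2 →
      ‖∑ n ∈ Finset.Icc 1 N,
          Complex.exp (2 * (Real.pi : ℂ) * Complex.I * (((t * (n : ℝ) ^ k + ξ * (n : ℝ)) : ℝ) : ℂ))‖ ≤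
        C * (N : ℝ) ^ (1 + ε) *
          (1 / (q : ℝ) + 1 / (N : ℝ) + (q : ℝ) / (N : ℝ) ^ k) ^ η} ≤
      ENNReal.ofReal (1 - ((i : ℝ) - (2 ^ i + 2) * (η - ε)) / k) := by
  intro k i hk hi hik η ε hη hη1 hε
  exact Pool.Agent.Run7.h556.MW.dim_lead k i hk hi hik η ε hη hη1 hε

end Pool.Agent.Results.MP_3b0be2_nt.ExceptionalLeadingCoefficients
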