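import Mathlib
import Pool.Agent.Run7.h566.WS.Main

/-!
# Montgomery's conjecture on Weyl sums in multilinear families of leading coefficients

The leading coefficient `t` runs over the values `a_0 ⋯ a_{n+1} θ + x_0(a) + ⋯ + x_{n+1}(a)` at the integer
points of a cube, where `x_j` is any real function of `a` which does not depend on `a_j`. The moments of the
supremum over the linear coefficient (system of the degrees `1, k`) and a power saving for the sums of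
`e(D t)` bound the number of members at which the inequality of `H_k(η)` fails for some linear coefficient
and some length in a range.
-/

set_option autoImplicit false

open Finset
open scoped Classical

namespace Pool.Agent.Results.MP_3b0be2_nt.MultilinearFamilies

/-- for some real `ξ` the sum of `e(t m ^ k + ξ m)`, `1 ≤ m ≤ N`, has size greater than `V` -/
def Large (k N : ℕ) (t V : ℝ) : Prop :=
  ∃ ξ : ℝ, V < ‖∑ m ∈ Icc 1 N,
    Complex.exp (2 * (Real.pi : ℂ) * Complex.I * (((t * (m : ℝ) ^ k + ξ * (m : ℝ)) : ℝ) : ℂ))‖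

/-- the function `F` of `d`-tuples does not depend on the coordinate `j` -/
def Free {d : ℕ} (j : Fin d) (F : (Fin d → ℕ) → ℝ) : Prop :=
  ∀ a a' : Fin d → ℕ, (∀ i, i ≠ j → a i = a' i) → F a = F a'

/-- the points with the coordinates `0 ≤ a_i < M` -/
def box (d M : ℕ) : Finset (Fin d → ℕ) := Fintype.piFinset fun _ => range M

/-- Let `k ≥ 2`, `1 ≤ i ≤ k`, `n ≥ 0`, `0 ≤ η ≤ 1`, `ε ≥ 0` and `0 < ρ < κ = i - (2 ^ i + 2) (η - ε)`.
There are `B` and `C > 0` such that the following holds for all `M`, all `L ≥ 1` with `(2 L) ^ B ≤ M`,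
every real `θ` such that `b θ` has distance greater than `1 / √M` to every integer for all
`1 ≤ b ≤ M ^ (1 / 12)`, and all real functions `x_0, …, x_{n+1}` of tuples `a = (a_0, …, a_{n+1})` such that
`x_j` does not depend on `a_j`.

**(1)** For every `N₀ ≥ 1`, for all but at most `C N₀ ^ (-(κ - ρ)) M ^ (n + 2)` of the tuples of integers in
`[0, M)`, the number `t = a_0 ⋯ a_{n+1} θ + x_0(a) + ⋯ + x_{n+1}(a)` has the property that
`|∑_{m ≤ N} e(t m ^ k + ξ m)| ≤ N ^ (1 - η + ε)` for ALL `N₀ ≤ N ≤ L` and ALL real `ξ`.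

**(2)** For such `t` the inequality of `H_k(η)` holds with the constant `1`, for these `N`, all real `ξ` and
all `q ≥ 1`.

For `k = 3`, `η = 1 / 3`, `i = 2`: `κ = 6 ε`. For `η = 1 / k`, `i = 2`: `κ = 2 - 6 / k + 6 ε`. -/
theorem result : ∀ k i n : ℕ, 2 ≤ k → 1 ≤ i → i ≤ k → ∀ η ε ρ : ℝ, 0 ≤ η → η ≤ 1 → 0 ≤ ε → 0 < ρ →
    ρ < (i : ℝ) - (2 ^ i + 2) * (η - ε) →
    ∃ B : ℕ, ∃ C : ℝ, 0 < C ∧ ∀ M L : ℕ, 1 ≤ L → (2 * L) ^ B ≤ M → ∀ θ : ℝ,
    (∀ b : ℕ, 1 ≤ b → b ^ 12 ≤ M → ∀ u : ℤ, 1 / √(M : ℝ) < |(b : ℝ) * θ - u|) →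
    ∀ x : Fin (n + 2) → (Fin (n + 2) → ℕ) → ℝ, (∀ j, Free j (x j)) →
    (∀ N₀ : ℕ, 1 ≤ N₀ →
      (((box (n + 2) M).filter fun a => ∃ N : ℕ, N₀ ≤ N ∧ N ≤ L ∧
        Large k N ((∏ i, (a i : ℝ)) * θ + ∑ j, x j a) ((N : ℝ) ^ (1 - η + ε))).card : ℝ) ≤
        C * (N₀ : ℝ) ^ (-((i : ℝ) - (2 ^ i + 2) * (η - ε) - ρ)) * (M : ℝ) ^ (n + 2)) ∧
    (∀ (t : ℝ) (N : ℕ), 1 ≤ N → ¬ Large k N t ((N : ℝ) ^ (1 - η + ε)) → ∀ (q : ℕ) (ξ : ℝ),
      ‖∑ m ∈ Icc 1 N,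
        Complex.exp (2 * (Real.pi : ℂ) * Complex.I * (((t * (m : ℝ) ^ k + ξ * (m : ℝ)) : ℝ) : ℂ))‖ ≤
        (N : ℝ) ^ (1 + ε) * (1 / (q : ℝ) + 1 / (N : ℝ) + (q : ℝ) / (N : ℝ) ^ k) ^ η) := by
  intro k i n hk hi hik η ε ρ hη hη1 hε hρ hκ
  obtain ⟨B, C, hC, h⟩ := Pool.Agent.Run7.h566.WS.main k i n hk hi hik η ε ρ hη1 hε hρ hκ
  refine ⟨B, C, hC, fun M L hL hLM θ hθ x hx => ⟨fun N₀ hN₀ => ?_, fun t N hN ht q ξ => ?_⟩⟩
  · refine h M L hL hLM θ (fun b hb hb2 u => ?_) x hx N₀ hN₀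
    have h1 := hθ b hb hb2 u
    rwa [one_div, Real.sqrt_eq_rpow, ← Real.rpow_neg (Nat.cast_nonneg M)] at h1
  · unfold Large at ht
    push Not at ht
    exact (ht ξ).trans (Pool.Agent.Run7.h556.MW.big_le k N q η ε hη hN)

end Pool.Agent.Results.MP_3b0be2_nt.MultilinearFamilies
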