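import Pool.Agent.Run7.h844.RP.PwU3

/-!
# Montgomery's conjecture on Weyl sums at the values of generalised polynomials at primes, all linear coefficients at once

Method: exponential sums over primes with the phase of a generalised polynomial: derivative bounds uniform in the
coefficients, van der Corput differencing of all orders, bilinear sums, Vaughan's identity (after `Pool.Agent.H895R3.NK`,
`Pool.Agent.H373R2.T7`), with a power saving at all frequencies up to a power (library `Pool.Agent.Run7.h844.RP`). The sixth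
moment over the primes of the supremum over the linear coefficient: an inequality of the large sieve type for sums with
arbitrary weights, and the number of solutions of the system of degrees `1`, `k` in six variables
(`Pool.Agent.Run7.h556.MW.Mv_three`). Incomplete sums: the maximal inequality `Pool.Agent.TH181.MW.max_le`.
-/

set_option autoImplicit false

namespace Pool.Agent.Results.MP_3b0be2_nt.ValuesAtPrimes

open Finset

/-- The generalised polynomial `∑ a x * t ^ x`, `x ∈ F`, with real exponents and coefficients. -/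
noncomputable def genPoly (F : Finset ℝ) (a : ℝ → ℝ) (t : ℝ) : ℝ := ∑ x ∈ F, a x * t ^ x

/-- `c` is the largest exponent; it is positive and not an integer, and its coefficient is not zero. -/
def Leading (F : Finset ℝ) (a : ℝ → ℝ) (c : ℝ) : Prop :=
  c ∈ F ∧ (∀ x ∈ F, x ≤ c) ∧ 0 < c ∧ (∀ m : ℕ, c ≠ m) ∧ a c ≠ 0

/-- the primes in `(X, 2 X]` -/
def P (X : ℕ) : Finset ℕ := (Ioc X (2 * X)).filter Nat.Prime

open Classical in
/-- Let `f` be a generalised polynomial whose largest exponent `c` is positive and not an integer, `k ≥ 2` and `δ > 0`. There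
are `κ > 0`, `y₀` and `X₀` such that for all `X ≥ X₀`, all real `z` and all `y ≥ y₀` (write `t = f(p) + z`):

(1) for every weight `w : ℕ → ℂ` with `|w n| ≤ 1`, for all the primes `X < p ≤ 2 X` except for a proportion of at most `y ^ (-δ)`,
`|∑_{n ≤ N} w(n) e(t n ^ k + ξ n)| ≤ N ^ (2 / 3 + δ)` for ALL `y ≤ N ≤ X ^ κ` and ALL real `ξ`;

(2) for all the primes `X < p ≤ 2 X` except for a proportion of at most `y ^ (-δ)`,
`|∑_{n ≤ N} e(t n ^ k + ξ n)| ≤ N ^ (1 + δ) (1 / q + 1 / N + q / N ^ k) ^ η` for ALL `y ≤ N ≤ X ^ κ`, ALL real `ξ`, ALL natural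
numbers `q` and ALL `0 ≤ η ≤ 1 / 3` (thus for `η = 1 / k` if `k ≥ 3`). -/
theorem result (F : Finset ℝ) (a : ℝ → ℝ) (c : ℝ) (hF : Leading F a c) (k : ℕ) (hk : 2 ≤ k) (δ : ℝ) (hδ : 0 < δ) :
    ∃ κ y₀ : ℝ, 0 < κ ∧ ∃ X₀ : ℕ, ∀ X : ℕ, X₀ ≤ X → ∀ z y : ℝ, y₀ ≤ y →
      (∀ w : ℕ → ℂ, (∀ n, ‖w n‖ ≤ 1) →
        (((P X).filter fun p : ℕ => ∃ N : ℕ, y ≤ N ∧ (N : ℝ) ≤ (X : ℝ) ^ κ ∧ ∃ ξ : ℝ, (N : ℝ) ^ (2 / 3 + δ) <
          ‖∑ n ∈ Icc 1 N, w n * Complex.exp (2 * (Real.pi : ℂ) * Complex.I *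
            (((genPoly F a p + z) * (n : ℝ) ^ k + ξ * (n : ℝ) : ℝ) : ℂ))‖).card : ℝ) ≤ y ^ (-δ) * (P X).card) ∧
      (((P X).filter fun p : ℕ => ∃ N : ℕ, y ≤ N ∧ (N : ℝ) ≤ (X : ℝ) ^ κ ∧ ∃ ξ : ℝ, ∃ q : ℕ, ∃ η : ℝ, 0 ≤ η ∧ η ≤ 1 / 3 ∧
        (N : ℝ) ^ (1 + δ) * (1 / (q : ℝ) + 1 / (N : ℝ) + (q : ℝ) / (N : ℝ) ^ k) ^ η <
          ‖∑ n ∈ Icc 1 N, Complex.exp (2 * (Real.pi : ℂ) * Complex.I *
            (((genPoly F a p + z) * (n : ℝ) ^ k + ξ * (n : ℝ) : ℝ) : ℂ))‖).card : ℝ) ≤ y ^ (-δ) * (P X).card := by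
  obtain ⟨hcF, hmax, hc, hn, ha⟩ := hF
  obtain ⟨κ, y₀, hκ, hy₀, X₀, h1⟩ := Pool.Agent.Run7.h844.RP.Wy.primes_weyl F c hcF hn hc hmax a ha k hk δ hδ
  refine ⟨κ, y₀, hκ, X₀, fun X hX z y hy => ?_⟩
  have hws : ∀ (w : ℕ → ℂ) (N : ℕ) (t ξ : ℝ), Pool.Agent.Run7.h844.RP.Wy.ws w k N t ξ =
      ∑ n ∈ Icc 1 N, w n * Complex.exp (2 * (Real.pi : ℂ) * Complex.I * ((t * (n : ℝ) ^ k + ξ * (n : ℝ) : ℝ) : ℂ)) := by
    intro w N t ξ
    unfold Pool.Agent.Run7.h844.RP.Wy.ws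
    refine sum_congr rfl fun n _ => ?_
    rw [← Pool.Agent.Run7.h844.RP.Wy.eW]
    rfl
  have h2 : ∀ w : ℕ → ℂ, (∀ n, ‖w n‖ ≤ 1) →
        (((P X).filter fun p : ℕ => ∃ N : ℕ, y ≤ N ∧ (N : ℝ) ≤ (X : ℝ) ^ κ ∧ ∃ ξ : ℝ, (N : ℝ) ^ (2 / 3 + δ) <
          ‖∑ n ∈ Icc 1 N, w n * Complex.exp (2 * (Real.pi : ℂ) * Complex.I *
            (((genPoly F a p + z) * (n : ℝ) ^ k + ξ * (n : ℝ) : ℝ) : ℂ))‖).card : ℝ) ≤ y ^ (-δ) * (P X).card := by
    intro w hw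
    have h3 := h1 X hX z y hy w hw
    simp only [hws] at h3
    exact h3
  refine ⟨h2, ?_⟩
  have h3 := h2 (fun _ => 1) (fun _ => by simp)
  refine le_trans ?_ h3
  apply Nat.cast_le.2
  apply card_le_card
  intro p hp
  rw [mem_filter] at hp ⊢
  obtain ⟨hp1, N, hN, hNX, ξ, q, η, hη0, hη1, hbig⟩ := hp
  refine ⟨hp1, N, hN, hNX, ξ, ?_⟩
  have hN1 : 1 ≤ N := by
    have : (1 : ℝ) ≤ N := hy₀.trans (hy.trans hN)
    exact_mod_cast this
  have h4 := Pool.Agent.Run7.h844.RP.Wy.big_le k N q η δ hη0 hN1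
  have h5 : (N : ℝ) ^ (2 / 3 + δ) ≤ (N : ℝ) ^ (1 - η + δ) :=
    Real.rpow_le_rpow_of_exponent_le (by exact_mod_cast hN1) (by linarith)
  simp only [one_mul]
  exact (h5.trans h4).trans_lt hbig

end Pool.Agent.Results.MP_3b0be2_nt.ValuesAtPrimes
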